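import Pool.Agent.Helper69.VX.St

/-! # Project VX (MP_e12aa9_pr), module ALS: second moment of the independence number -/

set_option autoImplicit false

namespace Pool.Agent.Helper94.VX

open Finset Filter Pool.Agent.Helper82.CN Pool.Agent.Helper11.PV Pool.Agent.Helper69.VX

private theorem als_num (n a : ℕ) (ρ : ℝ) (hρ : 0 ≤ ρ) (hn : 1 ≤ n)
    (h : (n : ℝ) ^ 6 * ρ ^ a ≤ 1) :
    (n : ℝ) ^ 2 * ((n : ℝ) ^ (a + 1) * ρ ^ ((a + 1).choose 2)) ≤ 1 := by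
  have hn1 : (1 : ℝ) ≤ n := by exact_mod_cast hn
  obtain ⟨C, hC⟩ : ∃ C, C = (a + 1).choose 2 := ⟨_, rfl⟩
  have h2C : C * 2 = a * (a + 1) := by
    rw [hC, Nat.choose_two_right, Nat.add_sub_cancel, mul_comm (a + 1) a]
    exact Nat.div_mul_cancel (Nat.even_mul_succ_self a).two_dvd
  rw [← hC]
  have h1 : ((n : ℝ) ^ 6 * ρ ^ a) ^ (a + 1) ≤ 1 := pow_le_one₀ (by positivity) h
  have h3 : ((n : ℝ) ^ (a + 3) * ρ ^ C) ^ 2 ≤ 1 := by
    refine le_trans ?_ h1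
    have e1 : ((n : ℝ) ^ (a + 3) * ρ ^ C) ^ 2 = (n : ℝ) ^ (2 * a + 6) * ρ ^ (a * (a + 1)) := by
      rw [mul_pow, ← pow_mul, ← pow_mul, h2C]
      congr 2
      ring
    have e2 : ((n : ℝ) ^ 6 * ρ ^ a) ^ (a + 1) = (n : ℝ) ^ (6 * (a + 1)) * ρ ^ (a * (a + 1)) := by
      rw [mul_pow, ← pow_mul, ← pow_mul]
    rw [e1, e2]
    exact mul_le_mul_of_nonneg_right (pow_le_pow_right₀ hn1 (by omega)) (by positivity)
  have h4 : (n : ℝ) ^ (a + 3) * ρ ^ C ≤ 1 := by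
    by_contra hcon
    rw [not_le] at hcon
    have := one_lt_pow₀ hcon (n := 2) (by norm_num)
    linarith
  calc (n : ℝ) ^ 2 * ((n : ℝ) ^ (a + 1) * ρ ^ C) = (n : ℝ) ^ (a + 3) * ρ ^ C := by ring
    _ ≤ 1 := h4

private theorem al_le_card {n : ℕ} (ω : Sym2 (Fin n) → Bool) : al ω ≤ n := by
  classical
  unfold al
  refine Finset.sup_le fun S _ => ?_
  exact (Finset.card_le_univ S).trans (by simp)

private theorem al_le_of {n a : ℕ} (ω : Sym2 (Fin n) → Bool)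
    (h : ¬ ∃ S : Finset (Fin n), S.card = a + 1 ∧ ∀ u ∈ S, ∀ v ∈ S, u ≠ v → ω s(u, v) = false) :
    al ω ≤ a := by
  classical
  unfold al
  refine Finset.sup_le fun S hS => ?_
  by_contra hcon
  rw [not_le] at hcon
  obtain ⟨T, hT, hTc⟩ := Finset.exists_subset_card_eq (n := a + 1) hcon
  simp only [Finset.mem_filter, Finset.mem_univ, true_and] at hS
  exact h ⟨T, hTc, fun u hu v hv huv => hS u (hT hu) v (hT hv) huv⟩

theorem hALS (hUBD : Pool.Agent.Helper11.PV.StUBD) : Pool.Agent.Helper69.VX.StALS := by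
  classical
  intro p₀ h0 h1
  obtain ⟨ρ, hρ⟩ : ∃ ρ, ρ = 1 - p₀ := ⟨_, rfl⟩
  have hρ0 : 0 ≤ ρ := by rw [hρ]; linarith
  have hρ1 : ρ < 1 := by rw [hρ]; linarith
  have ht := tendsto_pow_const_mul_const_pow_of_abs_lt_one 48 (r := ρ)
    (by rw [abs_of_nonneg hρ0]; exact hρ1)
  obtain ⟨a₀, ha₀⟩ := Filter.eventually_atTop.mp (ht.eventually (gt_mem_nhds one_pos))
  refine ⟨a₀ ^ 8 + 1, ?_⟩
  intro n p hn hp0 hp1
  have hn1 : 1 ≤ n := by omega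
  have hna : a₀ ^ 8 ≤ n := by omega
  have hp0' : 0 ≤ p := by linarith
  have hp1' : p ≤ 1 := by linarith
  have hnR : (1 : ℝ) ≤ n := by exact_mod_cast hn1
  have hn0 : (0 : ℝ) ≤ n := by linarith
  obtain ⟨r, hr⟩ : ∃ r : ℝ, r = (n : ℝ) ^ ((1 : ℝ) / 8) := ⟨_, rfl⟩
  have hr8 : r ^ 8 = n := by
    rw [hr, ← Real.rpow_natCast, ← Real.rpow_mul hn0]
    norm_num
  have hr2 : r ^ 2 = (n : ℝ) ^ ((1 : ℝ) / 4) := by
    rw [hr, ← Real.rpow_natCast, ← Real.rpow_mul hn0]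
    norm_num
  have hr1 : 1 ≤ r := by
    rw [hr]
    exact Real.one_le_rpow hnR (by norm_num)
  obtain ⟨a, ha⟩ : ∃ a, a = ⌈r⌉₊ := ⟨_, rfl⟩
  have ha1 : r ≤ a := by rw [ha]; exact Nat.le_ceil _
  have ha2 : (a : ℝ) ≤ r + 1 := by
    rw [ha]
    exact (Nat.ceil_lt_add_one (by linarith)).le
  have haa : a₀ ≤ a := by
    have h2 : (a₀ : ℝ) ^ 8 ≤ r ^ 8 := by
      rw [hr8]
      exact_mod_cast hna
    have h3 : (a₀ : ℝ) ≤ r := le_of_pow_le_pow_left₀ (by norm_num) (by linarith) h2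
    exact_mod_cast h3.trans ha1
  have hE : (n : ℝ) ^ 6 * ρ ^ a ≤ 1 := by
    have h2 := (ha₀ a haa).le
    have h3 : (n : ℝ) ^ 6 ≤ (a : ℝ) ^ 48 := by
      have h4 := pow_le_pow_left₀ (by linarith) ha1 48
      have h5 : r ^ 48 = (n : ℝ) ^ 6 := by rw [← hr8]; ring
      rwa [h5] at h4
    exact (mul_le_mul_of_nonneg_right h3 (by positivity)).trans h2
  have hS : ∀ ω : Sym2 (Fin n) → Bool, (al ω : ℝ) ^ 2 ≤ (a : ℝ) ^ 2 + (n : ℝ) ^ 2 *
        @ite ℝ (∃ S : Finset (Fin n), S.card = a + 1 ∧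
          ∀ u ∈ S, ∀ v ∈ S, u ≠ v → ω s(u, v) = false) (Classical.propDecidable _) 1 0 := by
    intro ω
    by_cases hex : ∃ S : Finset (Fin n), S.card = a + 1 ∧
        ∀ u ∈ S, ∀ v ∈ S, u ≠ v → ω s(u, v) = false
    · rw [if_pos hex, mul_one]
      have h2 : (al ω : ℝ) ≤ n := by exact_mod_cast al_le_card ω
      have h3 : (al ω : ℝ) ^ 2 ≤ (n : ℝ) ^ 2 := pow_le_pow_left₀ (Nat.cast_nonneg _) h2 2
      have h4 : (0 : ℝ) ≤ (a : ℝ) ^ 2 := by positivity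
      linarith
    · rw [if_neg hex, mul_zero, add_zero]
      have h2 : (al ω : ℝ) ≤ a := by exact_mod_cast al_le_of ω hex
      exact pow_le_pow_left₀ (Nat.cast_nonneg _) h2 2
  have hmean := EE_mono hp0' hp1' hS
  rw [EE_add, EE_const, EE_mul_left] at hmean
  have hU := hUBD p n (a + 1) false hp0' hp1'
  have hbw : bw p false = 1 - p := by simp [bw]
  rw [hbw] at hU
  have hU2 : (n : ℝ) ^ 2 * PP p (fun ω : Sym2 (Fin n) → Bool => ∃ S : Finset (Fin n),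
      S.card = a + 1 ∧ ∀ u ∈ S, ∀ v ∈ S, u ≠ v → ω s(u, v) = false) ≤ 1 := by
    refine le_trans (mul_le_mul_of_nonneg_left hU (by positivity)) ?_
    refine le_trans ?_ (als_num n a ρ hρ0 hn1 hE)
    have h2 : (1 - p) ^ ((a + 1).choose 2) ≤ ρ ^ ((a + 1).choose 2) :=
      pow_le_pow_left₀ (by linarith) (by rw [hρ]; linarith) _
    gcongr
  unfold PP at hU2
  have hfin : EE p (fun ω : Sym2 (Fin n) → Bool => (al ω : ℝ) ^ 2) ≤ (a : ℝ) ^ 2 + 1 :=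
    hmean.trans (add_le_add le_rfl hU2)
  have ha3 : (a : ℝ) ^ 2 ≤ 4 * r ^ 2 := by nlinarith
  have hr21 : 1 ≤ r ^ 2 := by nlinarith
  rw [← hr2]
  linarith

end Pool.Agent.Helper94.VX
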